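import Mathlib

namespace Pool.Agent.Results.MP_f7aa94_lc.NoBorelReduction

open Cardinal Function Set

/-- A real: an element of Cantor space, identified with a subset of `ω`. -/
abbrev Real' : Type := ℕ → Bool

/-! ### Relative computability and Kleene's `O` -/

/-- Programs with an oracle. -/
inductive OCode : Type
  | zero : OCode
  | succ : OCode
  | left : OCode
  | right : OCode
  | oracle : OCode
  | pair : OCode → OCode → OCode
  | comp : OCode → OCode → OCode
  | prec : OCode → OCode → OCode
  | rfind : OCode → OCode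

/-- The partial function computed by a program with the oracle `x`. -/
noncomputable def OCode.eval (x : Real') : OCode → ℕ →. ℕ
  | .zero => fun _ => Part.some 0
  | .succ => fun n => Part.some (n + 1)
  | .left => fun n => Part.some (Nat.unpair n).1
  | .right => fun n => Part.some (Nat.unpair n).2
  | .oracle => fun n => Part.some (x n).toNat
  | .pair c d => fun n => Nat.pair <$> c.eval x n <*> d.eval x n
  | .comp c d => fun n => d.eval x n >>= c.eval x
  | .prec c d => fun p =>
      Nat.rec (c.eval x (Nat.unpair p).1)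
        (fun y IH => do
          let i ← IH
          d.eval x (Nat.pair (Nat.unpair p).1 (Nat.pair y i))) (Nat.unpair p).2
  | .rfind c => fun a => Nat.rfind fun n => (fun m => decide (m = 0)) <$> c.eval x (Nat.pair a n)

/-- The Gödel number of a program. -/
def OCode.num : OCode → ℕ
  | .zero => 0
  | .succ => 1
  | .left => 2
  | .right => 3
  | .oracle => 4
  | .pair c d => 4 * Nat.pair c.num d.num + 5
  | .comp c d => 4 * Nat.pair c.num d.num + 6
  | .prec c d => 4 * Nat.pair c.num d.num + 7
  | .rfind c => 4 * c.num + 8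

/-- `φ_e^x(n) = v`. -/
def Phi (x : Real') (e n v : ℕ) : Prop := ∃ c : OCode, c.num = e ∧ v ∈ c.eval x n

mutual
/-- Membership in Kleene's `O` relative to `x`. -/
inductive IsO (x : Real') : ℕ → Prop
  | one : IsO x 1
  | succ (a : ℕ) : IsO x a → IsO x (2 ^ a)
  | lim (e : ℕ) (f : ℕ → ℕ) : (∀ n, Phi x e n (f n)) → (∀ n, IsO x (f n)) →
      (∀ n, LtO x (f n) (f (n + 1))) → IsO x (3 * 5 ^ e)
/-- The relation `<_O` relative to `x`. -/
inductive LtO (x : Real') : ℕ → ℕ → Prop
  | succ (a : ℕ) : IsO x a → LtO x a (2 ^ a)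
  | lim (e : ℕ) (f : ℕ → ℕ) (m : ℕ) : (∀ n, Phi x e n (f n)) → (∀ n, IsO x (f n)) →
      (∀ n, LtO x (f n) (f (n + 1))) → LtO x (f m) (3 * 5 ^ e)
  | trans (a b c : ℕ) : LtO x a b → LtO x b c → LtO x a c
end

open Classical in
/-- The functional `x ↦ O^x`. -/
noncomputable def OBox (x : Real') : Real' := fun n => decide (IsO x n)

/-! ### Functionals clarifying the well-orders -/

/-- The binary relation on `ω` coded by a real. -/
def rel (A : Real') : ℕ → ℕ → Prop := fun n m => A (Nat.pair n m) = true

/-- The characteristic function of a real as an oracle. -/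
def chi (z : Real') : ℕ →. ℕ := fun n => Part.some (z n).toNat

/-- The join of two reals. -/
def join (a b : Real') : Real' := fun n => if n % 2 = 0 then a (n / 2) else b (n / 2)

/-- `g` is Turing computable from the real `z`. -/
def ComputableFrom (z : Real') (g : ℕ → ℕ) : Prop :=
  Nat.RecursiveIn {chi z} (fun n => Part.some (g n))

/-- The functional `F` clarifies the class of the well-orders with domain `ω`: for isomorphic
well-orders `A`, `B` some isomorphism is computable from `F A ⊕ F B`. -/
def ClarifiesW (F : Real' → Real') : Prop :=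
  ∀ A B : Real', IsWellOrder ℕ (rel A) → IsWellOrder ℕ (rel B) → Nonempty (rel A ≃r rel B) →
    ∃ i : rel A ≃r rel B, ComputableFrom (join (F A) (F B)) i

/-! ### Injectivity of `O` -/

theorem num_injective : Injective OCode.num := by
  intro c
  induction c with
  | zero => intro d h; cases d <;> simp only [OCode.num] at h <;> first | rfl | omega
  | succ => intro d h; cases d <;> simp only [OCode.num] at h <;> first | rfl | omega
  | left => intro d h; cases d <;> simp only [OCode.num] at h <;> first | rfl | omega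
  | right => intro d h; cases d <;> simp only [OCode.num] at h <;> first | rfl | omega
  | oracle => intro d h; cases d <;> simp only [OCode.num] at h <;> first | rfl | omega
  | pair a b iha ihb =>
    intro d h
    cases d with
    | pair a' b' =>
      simp only [OCode.num] at h
      have h2 : Nat.pair a.num b.num = Nat.pair a'.num b'.num := by omega
      obtain ⟨h3, h4⟩ := Nat.pair_eq_pair.1 h2
      rw [iha h3, ihb h4]
    | _ => simp only [OCode.num] at h; omega
  | comp a b iha ihb =>
    intro d h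
    cases d with
    | comp a' b' =>
      simp only [OCode.num] at h
      have h2 : Nat.pair a.num b.num = Nat.pair a'.num b'.num := by omega
      obtain ⟨h3, h4⟩ := Nat.pair_eq_pair.1 h2
      rw [iha h3, ihb h4]
    | _ => simp only [OCode.num] at h; omega
  | prec a b iha ihb =>
    intro d h
    cases d with
    | prec a' b' =>
      simp only [OCode.num] at h
      have h2 : Nat.pair a.num b.num = Nat.pair a'.num b'.num := by omega
      obtain ⟨h3, h4⟩ := Nat.pair_eq_pair.1 h2
      rw [iha h3, ihb h4]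
    | _ => simp only [OCode.num] at h; omega
  | rfind a iha =>
    intro d h
    cases d with
    | rfind a' =>
      simp only [OCode.num] at h
      have h2 : a.num = a'.num := by omega
      rw [iha h2]
    | _ => simp only [OCode.num] at h; omega

theorem exists_code {g : ℕ →. ℕ} (hg : Nat.Partrec g) : ∃ c : OCode, ∀ x, c.eval x = g := by
  induction hg with
  | zero => exact ⟨.zero, fun x => rfl⟩
  | succ => exact ⟨.succ, fun x => rfl⟩
  | left => exact ⟨.left, fun x => rfl⟩
  | right => exact ⟨.right, fun x => rfl⟩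
  | pair _ _ ih1 ih2 =>
    obtain ⟨c, hc⟩ := ih1
    obtain ⟨d, hd⟩ := ih2
    exact ⟨.pair c d, fun x => by funext n; simp only [OCode.eval, hc, hd]⟩
  | comp _ _ ih1 ih2 =>
    obtain ⟨c, hc⟩ := ih1
    obtain ⟨d, hd⟩ := ih2
    exact ⟨.comp c d, fun x => by funext n; simp only [OCode.eval, hc, hd]⟩
  | prec _ _ ih1 ih2 =>
    obtain ⟨c, hc⟩ := ih1
    obtain ⟨d, hd⟩ := ih2
    exact ⟨.prec c d, fun x => by funext n; simp only [OCode.eval, hc, hd]⟩
  | rfind _ ih1 =>
    obtain ⟨c, hc⟩ := ih1
    exact ⟨.rfind c, fun x => by funext n; simp only [OCode.eval, hc]⟩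

/-- The notations of the finite ordinals. -/
def P : ℕ → ℕ
  | 0 => 1
  | n + 1 => 2 ^ P n

theorem primrec_pow2 : Primrec (fun n : ℕ => 2 ^ n) := by
  have h : Primrec₂ (fun (_ m : ℕ) => 2 * m) :=
    Primrec.nat_mul.comp (Primrec.const 2) Primrec.snd
  refine (Primrec.nat_rec₁ 1 h).of_eq (fun n => ?_)
  induction n with
  | zero => rfl
  | succ n ih =>
    show 2 * (Nat.rec 1 (fun _ m => 2 * m) n : ℕ) = _
    rw [ih, pow_succ]; ring

theorem primrec_P : Primrec P := by
  have h : Primrec₂ (fun (_ m : ℕ) => 2 ^ m) := primrec_pow2.comp Primrec.snd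
  refine (Primrec.nat_rec₁ 1 h).of_eq (fun n => ?_)
  induction n with
  | zero => rfl
  | succ n ih =>
    show 2 ^ (Nat.rec 1 (fun _ m => 2 ^ m) n : ℕ) = _
    rw [ih]; rfl

/-- A program which decodes the oracle. -/
theorem exists_decoder (n : ℕ) : ∃ c : OCode, ∀ x : Real',
    (x n = true → ∀ m, P m ∈ c.eval x m) ∧ (x n = false → ∀ m v, v ∉ c.eval x m) := by
  obtain ⟨cn, hcn⟩ := exists_code (g := fun _ => Part.some n)
    (Nat.Partrec.of_primrec (Nat.Primrec.const n))
  obtain ⟨cs, hcs⟩ := exists_code (g := fun m => Part.some (1 - m))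
    (Nat.Partrec.of_primrec (Primrec.nat_iff.1
      (Primrec.nat_sub.comp (Primrec.const 1) Primrec.id)))
  obtain ⟨cl, hcl⟩ := exists_code (g := fun m => Part.some (P (Nat.unpair m).1))
    (Nat.Partrec.of_primrec (Primrec.nat_iff.1
      (primrec_P.comp (Primrec.fst.comp Primrec.unpair))))
  obtain ⟨ci, hci⟩ := exists_code (g := fun m => Part.some m)
    (Nat.Partrec.of_primrec (Primrec.nat_iff.1 Primrec.id))
  let cr : OCode := .rfind (.comp cs (.comp .oracle cn))
  have hin : ∀ x m, (OCode.comp cs (.comp .oracle cn)).eval x m =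
      Part.some (1 - (x n).toNat) := by
    intro x m
    simp only [OCode.eval, hcn, hcs]
    simp
  refine ⟨.comp cl (.pair ci cr), fun x => ⟨fun hx m => ?_, fun hx m v hv => ?_⟩⟩
  · have h0 : (0 : ℕ) ∈ cr.eval x m := by
      show 0 ∈ Nat.rfind fun k => (fun m => decide (m = 0)) <$>
        (OCode.comp cs (.comp .oracle cn)).eval x (Nat.pair m k)
      refine Nat.mem_rfind.2 ⟨?_, fun {k} hk => absurd hk (Nat.not_lt_zero k)⟩
      rw [hin, hx]
      simp
    have h1 : cr.eval x m = Part.some 0 := Part.eq_some_iff.2 h0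
    show P m ∈ (do let y ← (Nat.pair <$> ci.eval x m <*> cr.eval x m); cl.eval x y)
    rw [h1, hci, hcl]
    simp [Seq.seq]
  · have h1 : ∀ k, k ∉ cr.eval x m := by
      intro k hk
      have hk' : k ∈ Nat.rfind fun k => (fun m => decide (m = 0)) <$>
        (OCode.comp cs (.comp .oracle cn)).eval x (Nat.pair m k) := hk
      have h2 := (Nat.mem_rfind.1 hk').1
      rw [hin, hx] at h2
      simp at h2
    have hv' : v ∈ (do let y ← (Nat.pair <$> ci.eval x m <*> cr.eval x m); cl.eval x y) := hv
    have h2 : cr.eval x m = Part.none := Part.eq_none_iff.2 h1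
    rw [h2] at hv'
    simp [Seq.seq] at hv'

theorem isO_P (x : Real') (n : ℕ) : IsO x (P n) := by
  induction n with
  | zero => exact .one
  | succ n ih => exact .succ _ ih

theorem three_ne_two_pow (e a : ℕ) : 3 * 5 ^ e ≠ 2 ^ a := by
  intro h
  have h3 : 3 ∣ 2 ^ a := ⟨_, h.symm⟩
  have := Nat.Prime.dvd_of_dvd_pow Nat.prime_three h3
  omega

theorem isO_lim {x : Real'} {a : ℕ} (h : IsO x a) (e : ℕ) (ha : a = 3 * 5 ^ e) :
    ∃ f : ℕ → ℕ, ∀ n, Phi x e n (f n) := by
  cases h with
  | one => exact absurd ha.symm (by simp)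
  | succ b _ => exact absurd ha.symm (three_ne_two_pow e b)
  | lim e' f h1 h2 h3 =>
    have h5 : 5 ^ e' = 5 ^ e := by omega
    have h6 : e' = e := Nat.pow_right_injective (le_refl 2 |>.trans (by norm_num)) h5
    subst h6
    exact ⟨f, h1⟩

theorem OBox_injective : Injective OBox := by
  intro x y hxy
  have key : ∀ x : Real', ∀ n, x n = true ↔
      IsO x (3 * 5 ^ (Classical.choose (exists_decoder n)).num) := by
    intro x n
    obtain ⟨h1, h2⟩ := Classical.choose_spec (exists_decoder n) x
    constructor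
    · intro hx
      exact .lim _ P (fun m => ⟨_, rfl, h1 hx m⟩) (isO_P x) (fun m => .succ _ (isO_P x m))
    · intro h
      by_contra hx
      have hx' : x n = false := by simpa using hx
      obtain ⟨f, hf⟩ := isO_lim h _ rfl
      obtain ⟨c, hc, hv⟩ := hf 0
      have := num_injective hc
      subst this
      exact h2 hx' 0 _ hv
  funext n
  have hk : (x n = true) ↔ (y n = true) := by
    rw [key x n, key y n]
    have h := congrFun hxy (3 * 5 ^ (Classical.choose (exists_decoder n)).num)
    simp only [OBox, decide_eq_decide] at h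
    exact h
  exact Bool.eq_iff_iff.2 hk

/-! ### Systems of distinct representatives and the diagonalisation -/

theorem sdr {I X : Type} [Nonempty X] (hI : #I ≤ #X) (D : I → Set X) (hD : ∀ i, #(D i) = #X) :
    ∃ s : I → X, Injective s ∧ ∀ i, s i ∈ D i := by
  classical
  obtain ⟨r, wo, hr⟩ := Cardinal.exists_ord_eq I
  let s : I → X := wo.wf.fix (fun i rec =>
    Classical.epsilon (fun y => y ∈ D i ∧ ∀ j (h : r j i), y ≠ rec j h))
  have hs : ∀ i, s i = Classical.epsilon (fun y => y ∈ D i ∧ ∀ j (_ : r j i), y ≠ s j) :=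
    fun i => wo.wf.fix_eq _ i
  have key : ∀ i, s i ∈ D i ∧ ∀ j (_ : r j i), s i ≠ s j := by
    intro i
    have hex : ∃ y, y ∈ D i ∧ ∀ j (_ : r j i), y ≠ s j := by
      by_contra hcon
      push Not at hcon
      have hsub : D i ⊆ s '' {j | r j i} := by
        intro y hy
        obtain ⟨j, hj, hyj⟩ := hcon y hy
        exact ⟨j, hj, hyj.symm⟩
      have h1 : #(D i) ≤ #{j | r j i} := (Cardinal.mk_le_mk_of_subset hsub).trans
        Cardinal.mk_image_le
      have h2 : #{j | r j i} < #I := by
        have := Cardinal.card_typein_lt (r := r) i hr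
        rwa [Ordinal.card_typein] at this
      rw [hD i] at h1
      exact absurd (h1.trans_lt (h2.trans_le hI)) (lt_irrefl _)
    rw [hs i]
    exact Classical.epsilon_spec hex
  refine ⟨s, ?_, fun i => (key i).1⟩
  intro i j hij
  rcases trichotomous_of r i j with h | h | h
  · exact absurd hij.symm ((key j).2 i h)
  · exact h
  · exact absurd hij ((key i).2 j h)

theorem mk_real : #Real' = 𝔠 := by
  rw [← Cardinal.power_def]
  simp

theorem card_pairs : #{p : (Real' → Real') × (Real' → Real') // Measurable p.1 ∧ Measurable p.2 ∧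
    Injective p.1} ≤ #Real' := by
  have h1 : #{s : Set Real' // MeasurableSet s} ≤ 𝔠 := by
    obtain ⟨b, hb, hgen⟩ :=
      (MeasurableSpace.CountablyGenerated.isCountablyGenerated (α := Real'))
    rw [hgen]
    exact MeasurableSpace.cardinal_measurableSet_le_continuum
      ((Cardinal.le_aleph0_iff_set_countable.2 hb).trans Cardinal.aleph0_le_continuum)
  let S : Type := {s : Set Real' // MeasurableSet s}
  have h2 : #((ℕ → S) × (ℕ → S)) ≤ 𝔠 := by
    have h3 : #(ℕ → S) ≤ 𝔠 := by
      rw [← Cardinal.power_def, Cardinal.mk_nat]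
      exact (Cardinal.power_le_power_right h1).trans (by simp)
    rw [Cardinal.mk_prod]
    simp only [Cardinal.lift_id]
    exact (mul_le_mul' h3 h3).trans (by simp)
  rw [mk_real]
  refine le_trans (Cardinal.mk_le_of_injective (f := fun p =>
    ((fun n => ⟨{x | p.1.1 x n = true}, ?_⟩, fun n => ⟨{x | p.1.2 x n = true}, ?_⟩) :
      (ℕ → S) × (ℕ → S))) ?_) h2
  · exact ((measurable_pi_apply n).comp p.2.1) (measurableSet_singleton true)
  · exact ((measurable_pi_apply n).comp p.2.2.1) (measurableSet_singleton true)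
  · rintro ⟨⟨a, b⟩, ha⟩ ⟨⟨c, d⟩, hc⟩ h
    simp only [Prod.mk.injEq] at h
    obtain ⟨e1, e2⟩ := h
    have e3 : a = c := by
      funext x n
      have := congrArg Subtype.val (congrFun e1 n)
      have h3 : (a x n = true) ↔ (c x n = true) := by
        have := Set.ext_iff.1 this x
        exact this
      exact Bool.eq_iff_iff.2 h3
    have e4 : b = d := by
      funext x n
      have := congrArg Subtype.val (congrFun e2 n)
      have h3 : (b x n = true) ↔ (d x n = true) := by
        have := Set.ext_iff.1 this x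
        exact this
      exact Bool.eq_iff_iff.2 h3
    subst e3 e4
    rfl

/-- The diagonalisation. -/
theorem diag (G : Real' → Real') (hG : Injective G) (Z : Real' → Set Real')
    (hZ : ∀ y y', (Z y ∩ Z y').Nonempty) :
    ∃ F : Real' → Real', (∀ y, F y ∈ Z y) ∧ ∀ R0 R1 : Real' → Real', Measurable R0 →
      Measurable R1 → ¬ ∀ x, R1 (F (R0 x)) = G x := by
  classical
  let I := {p : (Real' → Real') × (Real' → Real') // Measurable p.1 ∧ Measurable p.2 ∧
    Injective p.1}
  let C : I → Set Real' := fun p => {x | ∃ z ∈ Z (p.1.1 x), p.1.2 z ≠ G x}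
  have hC : ∀ p, #(C p) = #Real' := by
    intro p
    have hsub : (C p)ᶜ.Subsingleton := by
      intro x hx x' hx'
      have hx : ¬ ∃ z ∈ Z (p.1.1 x), p.1.2 z ≠ G x := hx
      have hx' : ¬ ∃ z ∈ Z (p.1.1 x'), p.1.2 z ≠ G x' := hx'
      push Not at hx hx'
      obtain ⟨z, hz, hz'⟩ := hZ (p.1.1 x) (p.1.1 x')
      exact hG ((hx z hz).symm.trans (hx' z hz'))
    have hinf : Infinite Real' := by
      rw [Cardinal.infinite_iff, mk_real]; exact Cardinal.aleph0_le_continuum
    have hfin : (C p)ᶜ.Finite := hsub.finite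
    have := Cardinal.mk_compl_of_infinite (C p)ᶜ (by
      have h1 : #((C p)ᶜ : Set Real') < ℵ₀ := Cardinal.lt_aleph0_iff_set_finite.2 hfin
      exact h1.trans_le (Cardinal.infinite_iff.1 hinf))
    rwa [compl_compl] at this
  obtain ⟨s, hs, hsD⟩ := sdr card_pairs (fun p : I => p.1.1 '' C p) (fun p => by
    rw [Cardinal.mk_image_eq p.2.2.2, hC p])
  have hch : ∀ p : I, ∃ z, z ∈ Z (s p) ∧ ∃ x, p.1.1 x = s p ∧ p.1.2 z ≠ G x := by
    intro p
    obtain ⟨x, ⟨z, hz, hne⟩, hx⟩ := hsD p
    exact ⟨z, by rw [← hx]; exact hz, x, hx, hne⟩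
  choose zz hzz using hch
  have hdef : ∀ y, ∃ z, z ∈ Z y := fun y => ⟨_, (hZ y y).some_mem.1⟩
  choose dd hdd using hdef
  let F : Real' → Real' := fun y => if h : ∃ p, s p = y then zz h.choose else dd y
  have hFs : ∀ p, F (s p) = zz p := by
    intro p
    have h : ∃ q, s q = s p := ⟨p, rfl⟩
    have h2 : F (s p) = zz h.choose := dif_pos h
    rw [h2]
    congr 1
    exact hs h.choose_spec
  refine ⟨F, fun y => ?_, ?_⟩
  · by_cases h : ∃ p, s p = y
    · obtain ⟨p, rfl⟩ := h
      rw [hFs]; exact (hzz p).1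
    · have : F y = dd y := dif_neg h
      rw [this]; exact hdd y
  · intro R0 R1 h0 h1 hR
    have hinj : Injective R0 := by
      intro x x' h
      exact hG (by rw [← hR, ← hR, h])
    obtain ⟨hz, x, hx, hne⟩ := hzz ⟨(R0, R1), h0, h1, hinj⟩
    apply hne
    have h2 := hR x
    change R0 x = s _ at hx
    rw [hx, hFs] at h2
    exact h2

/-! ### Computability facts -/

/-- The graph of a function as a real. -/
def gr (f : ℕ → ℕ) : Real' := fun n => decide (f (Nat.unpair n).1 = (Nat.unpair n).2)

theorem rec_gr {O : Set (ℕ →. ℕ)} {f : ℕ → ℕ} (h : Nat.RecursiveIn O (chi (gr f))) :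
    Nat.RecursiveIn O (fun n => Part.some (f n)) := by
  have h1 : Nat.RecursiveIn O (fun m => Part.some (1 - m)) :=
    Nat.Primrec.recursiveIn (Primrec.nat_iff.1
      (Primrec.nat_sub.comp (Primrec.const 1) Primrec.id))
  refine Nat.RecursiveIn.of_eq_tot (Nat.RecursiveIn.rfind (Nat.RecursiveIn.comp h1 h)) ?_
  intro n
  refine Nat.mem_rfind.2 ⟨?_, ?_⟩
  · simp [chi, gr]
  · intro m hm
    have hne : f n ≠ m := (ne_of_lt hm).symm
    simp [chi, gr, hne]

theorem rec_join_left (a b : Real') : Nat.RecursiveIn {chi (join a b)} (chi a) := by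
  have h1 : Nat.RecursiveIn {chi (join a b)} (fun m => Part.some (2 * m)) :=
    Nat.Primrec.recursiveIn (Primrec.nat_iff.1
      (Primrec.nat_mul.comp (Primrec.const 2) Primrec.id))
  refine Nat.RecursiveIn.of_eq (Nat.RecursiveIn.comp (.oracle _ rfl) h1) ?_
  intro n
  refine (Part.bind_some (2 * n) (chi (join a b))).trans ?_
  simp [chi, join]

theorem rec_join_right (a b : Real') : Nat.RecursiveIn {chi (join a b)} (chi b) := by
  have h1 : Nat.RecursiveIn {chi (join a b)} (fun m => Part.some (2 * m + 1)) :=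
    Nat.Primrec.recursiveIn (Primrec.nat_iff.1
      (Primrec.succ.comp (Primrec.nat_mul.comp (Primrec.const 2) Primrec.id)))
  refine Nat.RecursiveIn.of_eq (Nat.RecursiveIn.comp (.oracle _ rfl) h1) ?_
  intro n
  have h2 : (2 * n + 1) % 2 ≠ 0 := by omega
  have h3 : (2 * n + 1) / 2 = n := by omega
  refine (Part.bind_some (2 * n + 1) (chi (join a b))).trans ?_
  simp only [chi, join, if_neg h2, h3]

theorem rec_inv {O : Set (ℕ →. ℕ)} {f g i : ℕ → ℕ} (hf : Nat.RecursiveIn O (fun n => Part.some (f n)))
    (hg : Nat.RecursiveIn O (fun n => Part.some (g n))) (hi : ∀ n, g (i n) = f n)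
    (hg' : Injective g) : Nat.RecursiveIn O (fun n => Part.some (i n)) := by
  have h1 : Nat.RecursiveIn O (fun m => Part.some
      (if (Nat.unpair m).1 = (Nat.unpair m).2 then 0 else 1)) :=
    Nat.Primrec.recursiveIn (Primrec.nat_iff.1
      (Primrec.ite (Primrec.eq.comp (Primrec.fst.comp Primrec.unpair)
        (Primrec.snd.comp Primrec.unpair)) (Primrec.const 0) (Primrec.const 1)))
  have h2 := Nat.RecursiveIn.pair (Nat.RecursiveIn.comp hf .left) (Nat.RecursiveIn.comp hg .right)
  refine Nat.RecursiveIn.of_eq_tot (Nat.RecursiveIn.rfind (Nat.RecursiveIn.comp h1 h2)) ?_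
  intro n
  refine Nat.mem_rfind.2 ⟨?_, ?_⟩
  · simp [hi, Seq.seq]
  · intro m hm
    have hne : f n ≠ g m := by
      intro h
      rw [← hi] at h
      exact absurd (hg' h) (ne_of_gt hm)
    simp [hne, Seq.seq]

/-! ### The functional -/

/-- A chosen copy of the type of a well-order. -/
noncomputable def copy (o : Ordinal.{0}) : Real' :=
  Classical.epsilon (fun C => ∃ h : IsWellOrder ℕ (rel C), @Ordinal.type ℕ (rel C) h = o)

theorem copy_spec (A : Real') (h : IsWellOrder ℕ (rel A)) :
    ∃ h' : IsWellOrder ℕ (rel (copy (@Ordinal.type ℕ (rel A) h))),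
      @Ordinal.type ℕ (rel (copy (@Ordinal.type ℕ (rel A) h))) h' =
        @Ordinal.type ℕ (rel A) h :=
  Classical.epsilon_spec (p := fun C => ∃ h' : IsWellOrder ℕ (rel C),
    @Ordinal.type ℕ (rel C) h' = @Ordinal.type ℕ (rel A) h) ⟨A, h, rfl⟩

theorem exists_iso (A : Real') (h : IsWellOrder ℕ (rel A)) :
    Nonempty (rel A ≃r rel (copy (@Ordinal.type ℕ (rel A) h))) := by
  obtain ⟨h', he⟩ := copy_spec A h
  exact Ordinal.type_eq.1 he.symm

/-- The isomorphism onto the chosen copy. -/
noncomputable def iso (A : Real') (h : IsWellOrder ℕ (rel A)) :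
    rel A ≃r rel (copy (@Ordinal.type ℕ (rel A) h)) := (exists_iso A h).some

/-- The reals which compute the isomorphism onto the chosen copy. -/
def Z (A : Real') : Set Real' := {z | ∀ h : IsWellOrder ℕ (rel A), ComputableFrom z (iso A h)}

theorem Z_inter (A B : Real') : (Z A ∩ Z B).Nonempty := by
  classical
  let f : ℕ → ℕ := if h : IsWellOrder ℕ (rel A) then iso A h else id
  let g : ℕ → ℕ := if h : IsWellOrder ℕ (rel B) then iso B h else id
  refine ⟨join (gr f) (gr g), fun h => ?_, fun h => ?_⟩
  · have hf : f = iso A h := dif_pos h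
    have := rec_gr (rec_join_left (gr f) (gr g))
    rw [hf] at this ⊢
    exact this
  · have hg : g = iso B h := dif_pos h
    have := rec_gr (rec_join_right (gr f) (gr g))
    rw [hg] at this ⊢
    exact this

theorem clarifies {F : Real' → Real'} (hF : ∀ y, F y ∈ Z y) : ClarifiesW F := by
  intro A B hA hB ⟨e⟩
  have htype : @Ordinal.type ℕ (rel A) hA = @Ordinal.type ℕ (rel B) hB :=
    (@Ordinal.type_eq ℕ ℕ (rel A) (rel B) hA hB).2 ⟨e⟩
  have h1 := hF A hA
  have h2 := hF B hB
  obtain ⟨j, hj⟩ : ∃ j : rel B ≃r rel (copy (@Ordinal.type ℕ (rel A) hA)),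
      ∀ n, j n = iso B hB n := by
    rw [htype]
    exact ⟨iso B hB, fun _ => rfl⟩
  refine ⟨(iso A hA).trans j.symm, ?_⟩
  have s1 : Nat.RecursiveIn {chi (join (F A) (F B))} (fun n => Part.some (iso A hA n)) :=
    Nat.RecursiveIn.subst h1 (by
      rintro g rfl
      exact rec_join_left _ _)
  have s2 : Nat.RecursiveIn {chi (join (F A) (F B))} (fun n => Part.some (iso B hB n)) :=
    Nat.RecursiveIn.subst h2 (by
      rintro g rfl
      exact rec_join_right _ _)
  refine rec_inv s1 s2 (fun n => ?_) (iso B hB).injective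
  rw [← hj]
  simp

/-- There is a functional `F` which clarifies the class of the countable well-orders such that
`O` is not Borel reducible, in particular not continuously reducible, to `F`. -/
theorem result : ∃ F : Real' → Real', ClarifiesW F ∧
    (¬ ∃ R0 R1 : Real' → Real', Continuous R0 ∧ Continuous R1 ∧ ∀ x, R1 (F (R0 x)) = OBox x) ∧
    ¬ ∃ R0 R1 : Real' → Real', Measurable R0 ∧ Measurable R1 ∧ ∀ x, R1 (F (R0 x)) = OBox x := by
  obtain ⟨F, hF, hR⟩ := diag OBox OBox_injective Z Z_inter
  refine ⟨F, clarifies hF, ?_, ?_⟩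
  · rintro ⟨R0, R1, h0, h1, h⟩
    exact hR R0 R1 h0.measurable h1.measurable h
  · rintro ⟨R0, R1, h0, h1, h⟩
    exact hR R0 R1 h0 h1 h

end Pool.Agent.Results.MP_f7aa94_lc.NoBorelReduction
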